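import Mathlib
import Pool.Agent.L5helper40.PermFq

/-!
# The permanent of a random matrix over a finite field of odd order vanishes with probability
`1 / q + o(1)`

Idea of the proof (definitions in `Pool/Agent/L5helper40/PermFq.lean`).  Let `p n k` be the
probability that an `n × (n - k)` matrix has no nonzero `(n - k) × (n - k)` subpermanent, so
`q * Pr [per = 0] = 1 + (q - 1) * p n 1`.
* The vector `T` of the `(n - 1) × (n - 1)` subpermanents of an `n × (n - 1)` matrix has pairwise
  nearly independent coordinates: two of them are the scalar products of two independent uniform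
  vectors with a vector which vanishes with probability `p (n - 1) 1`.  Hence the proportion of
  zero coordinates of `T`, when `T ≠ 0`, differs from `1 / q` by at most
  `p (n - 1) 1 - p n 1 + 1 / n` in mean square.
* `T = M w` with `w` uniform and `M` symmetric with zero diagonal.  If `M ≠ 0` then, the order of
  the field being odd, there is `u` with `u ⬝ M u ≠ 0`, no row of `M` is a nonzero multiple of
  `M u`, and this forces a deviation of the number of zeros of `M w` of size at least
  `q ^ (- 2 rank M)`.  Together: `(p n 1 - p n 2) ^ 2 ≤ p (n - 1) 1 - p n 1 + 1 / n`.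
* `p n (k + 1) - p n (k + 2) ≤ 2 * (p n k - p n (k + 1))` and `p n k ≤ 2 ^ (- k)`.
* Along a sequence on which `p n 1` tends to its limit superior `L`, also `p (n - 1) 1` is at most
  `L + o(1)`, so `p n 1 - p n 2`, hence all `p n k - p n (k + 1)`, tend to `0`, and `L = 0`.
-/

set_option autoImplicit false

namespace Pool.Agent.Results.MP_b575e9_co.PermanentVanishing

open Pool.Agent.L5helper40.PermFq in
/-- For every finite field `F` of odd order `q`, the probability that a uniform random `n × n`
matrix over `F` has permanent `0` tends to `1 / q` as `n → ∞`. -/
theorem result (F : Type) [Field F] [Fintype F] (hF : Odd (Fintype.card F)) :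
    Filter.Tendsto
      (fun n : ℕ =>
        (Nat.card {A : Matrix (Fin n) (Fin n) F // A.permanent = 0} : ℝ) /
          (Nat.card (Matrix (Fin n) (Fin n) F) : ℝ))
      Filter.atTop (nhds (1 / (Fintype.card F : ℝ))) := by
  have h := tendsto_p_zero (F := F) (two_ne_zero_of_odd F hF)
  refine h.congr fun n => ?_
  exact p_zero_eq n

end Pool.Agent.Results.MP_b575e9_co.PermanentVanishing
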